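import Pool.Agent.Results.MP_3570a5_nt.NegativeCoefficient

/-!
# Adding a segment as a new group of vectors
-/

open Finset
open scoped Pointwise

set_option linter.unusedSectionVars false

namespace Pool.Agent.Y136.MM

open Pool.Agent.Results.MP_3570a5_nt.NegativeCoefficient

variable {d p : ℕ} {q : Fin p → ℕ} (v : Idx q → Fin d → ℤ)

/-- The sizes of the groups, with a new first group of size two. -/
def qs (q : Fin p → ℕ) : Fin (p + 1) → ℕ := Fin.cons 2 q

/-- Functions on the new index set. -/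
def glue {M : Type} (f : Fin 2 → M) (g : Idx q → M) : Idx (qs q) → M := fun a =>
  Fin.cases (motive := fun i => Fin (qs q i) → M) (fun j => f j) (fun i j => g ⟨i, j⟩) a.1 a.2

lemma glue_zero {M : Type} (f : Fin 2 → M) (g : Idx q → M) (j : Fin 2) :
    glue f g ⟨0, j⟩ = f j := rfl

lemma glue_succ {M : Type} (f : Fin 2 → M) (g : Idx q → M) (i : Fin p) (j : Fin (q i)) :
    glue f g ⟨i.succ, j⟩ = g ⟨i, j⟩ := rfl

/-- The old indices. -/
def old (a : Idx q) : Idx (qs q) := ⟨a.1.succ, a.2⟩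

/-- The new vectors: two opposite unit vectors, and the old vectors with first coordinate zero. -/
def vs : Idx (qs q) → Fin (d + 1) → ℤ :=
  glue (fun j => Fin.cons (![1, -1] j) 0) (fun a => Fin.cons 0 (v a))

lemma vs_zero (j : Fin 2) : vs v ⟨0, j⟩ = Fin.cons ((![1, -1] : Fin 2 → ℤ) j) 0 := rfl

lemma vs_succ (i : Fin p) (j : Fin (q i)) : vs v ⟨i.succ, j⟩ = Fin.cons 0 (v ⟨i, j⟩) := rfl

lemma sum_new {M : Type} [AddCommMonoid M] (f : Idx (qs q) → M) :
    ∑ a, f a = ∑ j : Fin 2, f ⟨0, j⟩ + ∑ a : Idx q, f (old a) := by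
  rw [Fintype.sum_sigma, Fin.sum_univ_succ, Fintype.sum_sigma]
  rfl

/-- Old exponents as new exponents. -/
noncomputable def ext (k : Idx q →₀ ℕ) : Idx (qs q) →₀ ℕ :=
  Finsupp.equivFunOnFinite.symm (glue (fun _ => 0) k)

lemma ext_zero (k : Idx q →₀ ℕ) (j : Fin 2) : ext k ⟨0, j⟩ = 0 := rfl

lemma ext_old (k : Idx q →₀ ℕ) (a : Idx q) : ext k (old a) = k a := rfl

/-- The old part of a new exponent. -/
noncomputable def res (k : Idx (qs q) →₀ ℕ) : Idx q →₀ ℕ :=
  Finsupp.equivFunOnFinite.symm (fun a => k (old a))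

lemma res_apply (k : Idx (qs q) →₀ ℕ) (a : Idx q) : res k a = k (old a) := rfl

lemma res_ext (k : Idx q →₀ ℕ) : res (ext k) = k := by
  ext a
  rfl

lemma idx_cases' (P : Idx (qs q) → Prop) (h0 : ∀ j : Fin 2, P ⟨0, j⟩)
    (h1 : ∀ a : Idx q, P (old a)) (a : Idx (qs q)) : P a := by
  obtain ⟨i, j⟩ := a
  revert j
  refine Fin.cases ?_ (fun i => ?_) i
  · intro j
    exact h0 j
  · intro j
    exact h1 ⟨i, j⟩

lemma ext_res {k : Idx (qs q) →₀ ℕ} (h : ∀ j : Fin 2, k ⟨0, j⟩ = 0) : ext (res k) = k := by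
  refine Finsupp.ext fun a => ?_
  refine idx_cases' (fun a => ext (res k) a = k a) (fun j => ?_) (fun a => rfl) a
  rw [ext_zero, h]

lemma ext_add (k l : Idx q →₀ ℕ) : ext (k + l) = ext k + ext l := by
  refine Finsupp.ext fun a => ?_
  refine idx_cases' (fun a => ext (k + l) a = (ext k + ext l) a) (fun j => ?_) (fun a => rfl) a
  rw [Finsupp.add_apply, ext_zero, ext_zero, ext_zero]

/-- Setting the new variables to zero. -/
noncomputable def rho (f : MvPowerSeries (Idx (qs q)) ℚ) : MvPowerSeries (Idx q) ℚ :=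
  fun k => MvPowerSeries.coeff (ext k) f

lemma coeff_rho (f : MvPowerSeries (Idx (qs q)) ℚ) (k : Idx q →₀ ℕ) :
    MvPowerSeries.coeff k (rho f) = MvPowerSeries.coeff (ext k) f := rfl

lemma rho_mul (f g : MvPowerSeries (Idx (qs q)) ℚ) : rho (f * g) = rho f * rho g := by
  classical
  refine MvPowerSeries.ext fun k => ?_
  rw [coeff_rho, MvPowerSeries.coeff_mul, MvPowerSeries.coeff_mul]
  refine Finset.sum_nbij' (fun x => (res x.1, res x.2)) (fun x => (ext x.1, ext x.2)) ?_ ?_ ?_ ?_ ?_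
  · intro x hx
    rw [Finset.HasAntidiagonal.mem_antidiagonal] at hx ⊢
    rw [← res_ext k, ← hx]
    refine Finsupp.ext fun a => rfl
  · intro x hx
    rw [Finset.HasAntidiagonal.mem_antidiagonal] at hx ⊢
    rw [← hx, ext_add]
  · intro x hx
    rw [Finset.HasAntidiagonal.mem_antidiagonal] at hx
    have h0 : ∀ j : Fin 2, x.1 ⟨0, j⟩ = 0 ∧ x.2 ⟨0, j⟩ = 0 := by
      intro j
      have h1 : (x.1 + x.2) ⟨0, j⟩ = 0 := by rw [hx]; exact ext_zero k j
      rw [Finsupp.add_apply] at h1
      omega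
    rw [Prod.ext_iff]
    exact ⟨ext_res fun j => (h0 j).1, ext_res fun j => (h0 j).2⟩
  · intro x _
    rw [Prod.ext_iff]
    exact ⟨res_ext _, res_ext _⟩
  · intro x hx
    rw [Finset.HasAntidiagonal.mem_antidiagonal] at hx
    have h0 : ∀ j : Fin 2, x.1 ⟨0, j⟩ = 0 ∧ x.2 ⟨0, j⟩ = 0 := by
      intro j
      have h1 : (x.1 + x.2) ⟨0, j⟩ = 0 := by rw [hx]; exact ext_zero k j
      rw [Finsupp.add_apply] at h1
      omega
    rw [coeff_rho, coeff_rho, ext_res fun j => (h0 j).1, ext_res fun j => (h0 j).2]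

lemma rho_one : rho (1 : MvPowerSeries (Idx (qs q)) ℚ) = 1 := by
  classical
  refine MvPowerSeries.ext fun k => ?_
  rw [coeff_rho, MvPowerSeries.coeff_one, MvPowerSeries.coeff_one]
  have h : ext k = 0 ↔ k = 0 := by
    constructor
    · intro h
      rw [← res_ext k, h]
      refine Finsupp.ext fun a => rfl
    · rintro rfl
      refine Finsupp.ext fun a => ?_
      exact idx_cases' (fun a => ext (0 : Idx q →₀ ℕ) a = (0 : Idx (qs q) →₀ ℕ) a)
        (fun j => rfl) (fun a => rfl) a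
  simp only [h]

lemma inK0_ext (k : Idx q →₀ ℕ) : InK0 (vs v) (ext k) ↔ InK0 v k := by
  unfold InK0
  rw [sum_new]
  have h1 : ∑ j : Fin 2, ((ext k ⟨0, j⟩ : ℕ) : ℤ) • vs v ⟨0, j⟩ = 0 := by
    refine Finset.sum_eq_zero fun j _ => ?_
    rw [ext_zero]
    simp
  rw [h1, zero_add]
  constructor
  · intro h
    funext t
    have := congrFun h t.succ
    rw [Finset.sum_apply] at this ⊢
    exact this
  · intro h
    funext t
    rw [Finset.sum_apply]
    refine Fin.cases ?_ (fun t => ?_) t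
    · refine Finset.sum_eq_zero fun a _ => ?_
      change ((ext k (old a) : ℕ) : ℤ) * (0 : ℤ) = 0
      rw [mul_zero]
    · have := congrFun h t
      rw [Finset.sum_apply] at this
      exact this

lemma coefC_ext (k : Idx q →₀ ℕ) : coefC (ext k) = coefC k := by
  unfold coefC
  rw [Fin.prod_univ_succ]
  have h1 : ((∑ j, ext k ⟨0, j⟩).factorial : ℚ) / ∏ j, ((ext k ⟨0, j⟩).factorial : ℚ) = 1 := by
    have h2 : ∑ j, ext k ⟨0, j⟩ = 0 := Finset.sum_eq_zero fun j _ => ext_zero k j
    have h3 : ∏ j, ((ext k ⟨0, j⟩).factorial : ℚ) = 1 := Finset.prod_eq_one fun j _ => by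
      rw [ext_zero k j]
      simp
    rw [h2, h3]
    simp
  rw [h1, one_mul]
  rfl

lemma rho_phi0 : rho (phi0 (vs v)) = phi0 v := by
  classical
  refine MvPowerSeries.ext fun k => ?_
  change (if InK0 (vs v) (ext k) then coefC (ext k) else 0) = if InK0 v k then coefC k else 0
  simp only [inK0_ext, coefC_ext]

lemma rho_phi (a : Idx q) : rho (phi (vs v) (old a)) = phi v a := by
  classical
  refine MvPowerSeries.ext fun k => ?_
  change (if InK0 (vs v) (ext k) then coefC (ext k) * (harmonic (∑ m, k ⟨a.1, m⟩) -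
    harmonic (k a)) else 0) = if InK0 v k then coefC k * (harmonic (∑ m, k ⟨a.1, m⟩) -
    harmonic (k a)) else 0
  simp only [inK0_ext, coefC_ext]

lemma constantCoeff_phi0' : MvPowerSeries.constantCoeff (phi0 v) ≠ 0 := by
  rw [← MvPowerSeries.coeff_zero_eq_constantCoeff_apply]
  have h1 : MvPowerSeries.coeff 0 (phi0 v) = coefC (0 : Idx q →₀ ℕ) := if_pos (by simp [InK0])
  rw [h1]
  simp [coefC]

lemma rho_logMirror (a : Idx q) : rho (logMirror (vs v) (old a)) = logMirror v a := by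
  unfold logMirror
  rw [rho_mul, rho_phi]
  have h1 : rho (phi0 (vs v))⁻¹ * phi0 v = 1 := by
    rw [← rho_phi0 v, ← rho_mul, MvPowerSeries.inv_mul_cancel _ (constantCoeff_phi0' (vs v)),
      rho_one]
  have h2 : rho (phi0 (vs v))⁻¹ = (phi0 v)⁻¹ := by
    calc rho (phi0 (vs v))⁻¹ = rho (phi0 (vs v))⁻¹ * (phi0 v * (phi0 v)⁻¹) := by
          rw [MvPowerSeries.mul_inv_cancel _ (constantCoeff_phi0' v), mul_one]
      _ = (phi0 v)⁻¹ := by rw [← mul_assoc, h1, one_mul]
  rw [h2]

/-! ### The polytope -/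

/-- The inclusion of the hyperplane `x₀ = 0`. -/
def incl (d : ℕ) : (Fin d → ℝ) →ₗ[ℝ] (Fin (d + 1) → ℝ) where
  toFun x := Fin.cons 0 x
  map_add' x y := by
    funext t
    refine Fin.cases ?_ (fun t => ?_) t
    · simp
    · simp
  map_smul' c x := by
    funext t
    refine Fin.cases ?_ (fun t => ?_) t
    · simp
    · simp

lemma incl_zero_apply (x : Fin d → ℝ) : incl d x 0 = 0 := rfl
lemma incl_succ (x : Fin d → ℝ) (t : Fin d) : incl d x t.succ = x t := rfl

/-- The segment spanned by the new vectors. -/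
def seg (d : ℕ) : Set (Fin (d + 1) → ℝ) :=
  convexHull ℝ (insert 0 (Set.range fun j : Fin 2 =>
    toReal (Fin.cons ((![1, -1] : Fin 2 → ℤ) j) (0 : Fin d → ℤ))))

lemma poly_vs : poly (vs v) = seg d + incl d '' poly v := by
  unfold poly
  rw [Fin.sum_univ_succ, Set.image_finsetSum]
  congr 1
  refine Finset.sum_congr rfl fun i _ => ?_
  rw [LinearMap.image_convexHull, Set.image_insert_eq, map_zero, ← Set.range_comp]
  congr 3
  funext j t
  refine Fin.cases (motive := fun t => ((vs v ⟨i.succ, j⟩ t : ℤ) : ℝ) =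
    incl d (toReal (v ⟨i, j⟩)) t) ?_ (fun t => ?_) t
  · change ((0 : ℤ) : ℝ) = 0
    exact Int.cast_zero
  · rfl

lemma seg_subset : seg d ⊆ {y | |y 0| ≤ 1 ∧ ∀ t : Fin d, y t.succ = 0} := by
  apply convexHull_min
  · rintro y (rfl | ⟨j, rfl⟩)
    · simp
    · fin_cases j
      · simp [toReal]
      · simp [toReal]
  · intro x hx y hy a b ha hb hab
    refine ⟨?_, fun t => ?_⟩
    · have h1 := abs_le.mp hx.1
      have h2 := abs_le.mp hy.1
      change |a * x 0 + b * y 0| ≤ 1
      rw [abs_le]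
      constructor <;> nlinarith
    · change a * x t.succ + b * y t.succ = 0
      rw [hx.2 t, hy.2 t, mul_zero, mul_zero, add_zero]

lemma mem_seg {s : ℝ} (h1 : -1 ≤ s) (h2 : s ≤ 1) : (Fin.cons s 0 : Fin (d + 1) → ℝ) ∈ seg d := by
  have hm : ∀ j : Fin 2, toReal (Fin.cons ((![1, -1] : Fin 2 → ℤ) j) (0 : Fin d → ℤ)) ∈ seg d :=
    fun j => subset_convexHull ℝ _ (Set.mem_insert_of_mem _ ⟨j, rfl⟩)
  have := (convex_convexHull ℝ (insert 0 (Set.range fun j : Fin 2 =>
    toReal (Fin.cons ((![1, -1] : Fin 2 → ℤ) j) (0 : Fin d → ℤ))))) (hm 0) (hm 1)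
    (show 0 ≤ (1 + s) / 2 by linarith) (show 0 ≤ (1 - s) / 2 by linarith) (by ring)
  have key : (Fin.cons s 0 : Fin (d + 1) → ℝ) =
      ((1 + s) / 2) • toReal (Fin.cons ((![1, -1] : Fin 2 → ℤ) 0) (0 : Fin d → ℤ)) +
      ((1 - s) / 2) • toReal (Fin.cons ((![1, -1] : Fin 2 → ℤ) 1) (0 : Fin d → ℤ)) := by
    funext t
    refine Fin.cases ?_ (fun t => ?_) t
    · simp [toReal]
      ring
    · simp [toReal]
  rw [key]
  exact this

lemma mem_poly_vs {y : Fin (d + 1) → ℝ} : y ∈ poly (vs v) ↔ |y 0| ≤ 1 ∧ Fin.tail y ∈ poly v := by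
  rw [poly_vs, Set.mem_add]
  constructor
  · rintro ⟨a, ha, b, ⟨c, hc, rfl⟩, rfl⟩
    have h1 := seg_subset ha
    refine ⟨?_, ?_⟩
    · rw [Pi.add_apply, incl_zero_apply, add_zero]
      exact h1.1
    · have : Fin.tail (a + incl d c) = c := by
        funext t
        change a t.succ + incl d c t.succ = c t
        rw [h1.2 t, zero_add, incl_succ]
      rw [this]
      exact hc
  · rintro ⟨h1, h2⟩
    refine ⟨Fin.cons (y 0) 0, mem_seg (abs_le.mp h1).1 (abs_le.mp h1).2, incl d (Fin.tail y),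
      ⟨_, h2, rfl⟩, ?_⟩
    funext t
    refine Fin.cases ?_ (fun t => ?_) t
    · simp [incl_zero_apply]
    · simp [incl_succ, Fin.tail]

lemma continuous_tail : Continuous (Fin.tail : (Fin (d + 1) → ℝ) → (Fin d → ℝ)) :=
  continuous_pi fun t => continuous_apply t.succ

lemma mem_interior_poly_vs {y : Fin (d + 1) → ℝ} :
    y ∈ interior (poly (vs v)) ↔ |y 0| < 1 ∧ Fin.tail y ∈ interior (poly v) := by
  have hset : poly (vs v) = (fun y : Fin (d + 1) → ℝ => (y 0, Fin.tail y)) ⁻¹'
      (Set.Icc (-1) 1 ×ˢ poly v) := by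
    ext y
    rw [mem_poly_vs, Set.mem_preimage, Set.mem_prod, Set.mem_Icc, abs_le]
  have hhomeo : ∃ e : (Fin (d + 1) → ℝ) ≃ₜ ℝ × (Fin d → ℝ), ∀ y, e y = (y 0, Fin.tail y) := by
    refine ⟨{ toFun := fun y => (y 0, Fin.tail y)
              invFun := fun x => Fin.cons x.1 x.2
              left_inv := fun y => by
                change Fin.cons (y 0) (Fin.tail y) = y
                exact Fin.cons_self_tail y
              right_inv := fun x => by
                rfl
              continuous_toFun := (continuous_apply 0).prodMk continuous_tail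
              continuous_invFun := ?_ }, fun y => rfl⟩
    refine continuous_pi fun t => ?_
    refine Fin.cases ?_ (fun t => ?_) t
    · simpa using continuous_fst
    · change Continuous fun a : ℝ × (Fin d → ℝ) => a.2 t
      exact (continuous_apply t).comp continuous_snd
  obtain ⟨e, he⟩ := hhomeo
  have hset2 : poly (vs v) = e ⁻¹' (Set.Icc (-1) 1 ×ˢ poly v) := by
    rw [hset]
    ext y
    rw [Set.mem_preimage, Set.mem_preimage, he]
  rw [hset2, ← e.preimage_interior, interior_prod_eq, interior_Icc, Set.mem_preimage, he,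
    Set.mem_prod, Set.mem_Ioo, abs_lt]

lemma tail_toReal (x : Fin (d + 1) → ℤ) : Fin.tail (toReal x) = toReal (Fin.tail x) := rfl

theorem standing_vs (h : Standing v) : Standing (vs v) := by
  refine ⟨?_, ?_⟩
  · rw [mem_interior_poly_vs]
    refine ⟨by simp, ?_⟩
    have : Fin.tail (0 : Fin (d + 1) → ℝ) = 0 := rfl
    rw [this]
    exact h.1
  · rw [eq_top_iff]
    intro x _
    have h1 : ∀ y : Fin d → ℤ, (Fin.cons 0 y : Fin (d + 1) → ℤ) ∈
        Submodule.span ℤ (Set.range (vs v)) := by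
      let L : (Fin d → ℤ) →ₗ[ℤ] (Fin (d + 1) → ℤ) :=
        { toFun := fun y => Fin.cons 0 y
          map_add' := fun x y => by
            funext t
            refine Fin.cases ?_ (fun t => ?_) t
            · simp
            · simp
          map_smul' := fun c x => by
            funext t
            refine Fin.cases ?_ (fun t => ?_) t
            · simp
            · simp }
      intro y
      have hy : y ∈ Submodule.span ℤ (Set.range v) := by rw [h.2]; trivial
      have h2 : L y ∈ (Submodule.span ℤ (Set.range v)).map L := ⟨y, hy, rfl⟩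
      rw [Submodule.map_span] at h2
      refine Submodule.span_mono ?_ h2
      rintro _ ⟨_, ⟨a, rfl⟩, rfl⟩
      exact ⟨old a, rfl⟩
    have hx : x = x 0 • vs v ⟨0, (0 : Fin 2)⟩ + Fin.cons 0 (Fin.tail x) := by
      funext t
      refine Fin.cases ?_ (fun t => ?_) t
      · simp [vs_zero]
      · simp [vs_zero, Fin.tail]
    rw [hx]
    exact Submodule.add_mem _ (Submodule.smul_mem _ _ (Submodule.subset_span ⟨_, rfl⟩)) (h1 _)

theorem fano_vs (h : Fano v) : Fano (vs v) := by
  intro x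
  rw [mem_interior_poly_vs, tail_toReal, h]
  constructor
  · rintro ⟨h1, h2⟩
    have h3 : x 0 = 0 := by
      rw [abs_lt] at h1
      have h4' : (-1 : ℝ) < ((x 0 : ℤ) : ℝ) := h1.1
      have h5' : ((x 0 : ℤ) : ℝ) < 1 := h1.2
      have h4 : -1 < x 0 := by exact_mod_cast h4'
      have h5 : x 0 < 1 := by exact_mod_cast h5'
      omega
    funext t
    refine Fin.cases h3 (fun t => ?_) t
    exact congrFun h2 t
  · rintro rfl
    exact ⟨by simp [toReal], rfl⟩

/-- There are Fano data with the parameters `d`, `p`, with distinct nonzero vectors, and a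
negative coefficient. -/
def Bad (d p : ℕ) : Prop := ∃ (q : Fin p → ℕ) (v : Idx q → Fin d → ℤ),
  (∀ i, 1 ≤ q i) ∧ Function.Injective v ∧ (∀ a, v a ≠ 0) ∧ Standing v ∧ Fano v ∧
    ∃ (a : Idx q) (k : Idx q →₀ ℕ), InK0 v k ∧ MvPowerSeries.coeff k (logMirror v a) < 0

theorem bad_succ (h : Bad d p) : Bad (d + 1) (p + 1) := by
  obtain ⟨q, v, h1, h2, h3, h4, h5, a, k, h6, h7⟩ := h
  refine ⟨qs q, vs v, ?_, ?_, ?_, standing_vs v h4, fano_vs v h5, old a, ext k,
    (inK0_ext v k).mpr h6, ?_⟩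
  · intro i
    refine Fin.cases ?_ (fun i => ?_) i
    · change 1 ≤ 2
      norm_num
    · exact h1 i
  · intro a b
    refine idx_cases' (fun a => vs v a = vs v b → a = b) (fun j => ?_) (fun a => ?_) a
    · refine idx_cases' (fun b => vs v ⟨0, j⟩ = vs v b → (⟨0, j⟩ : Idx (qs q)) = b)
        (fun j' hjj' => ?_) (fun b hb => ?_) b
      · have h8 := congrFun hjj' 0
        rw [vs_zero, vs_zero, Fin.cons_zero, Fin.cons_zero] at h8
        fin_cases j <;> fin_cases j' <;> first | rfl | (simp at h8)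
      · have h8 := congrFun hb 0
        rw [vs_zero, Fin.cons_zero] at h8
        change _ = (0 : ℤ) at h8
        fin_cases j <;> simp at h8
    · refine idx_cases' (fun b => vs v (old a) = vs v b → old a = b)
        (fun j' hjj' => ?_) (fun b hb => ?_) b
      · have h8 := congrFun hjj' 0
        rw [vs_zero, Fin.cons_zero] at h8
        change (0 : ℤ) = _ at h8
        fin_cases j' <;> simp at h8
      · have h9 : v a = v b := by
          funext t
          exact congrFun hb t.succ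
        rw [h2 h9]
  · intro b
    refine idx_cases' (fun b => vs v b ≠ 0) (fun j hj => ?_) (fun b hb => ?_) b
    · have h8 := congrFun hj 0
      rw [vs_zero, Fin.cons_zero] at h8
      change _ = (0 : ℤ) at h8
      fin_cases j <;> simp at h8
    · apply h3 b
      funext t
      exact congrFun hb t.succ
  · rw [← coeff_rho, rho_logMirror]
    exact h7

theorem bad_three_two : Bad 3 2 := by
  refine ⟨q0, vv, fun _ => by simp [q0], ?_, ?_,
    ⟨zero_mem_interior, span_vv⟩, fano_vv, ⟨0, (0 : Fin 3)⟩, mk 2 1 1 2 1 1, ?_, ?_⟩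
  · rintro ⟨i, j⟩ ⟨i', j'⟩ hij
    have key : ∀ (i : Fin 2) (j : Fin 3) (i' : Fin 2) (j' : Fin 3),
        (![![![-1, 0, 0], ![1, 0, 1], ![1, 0, -1]],
          ![![0, 1, 0], ![0, -1, 1], ![0, -1, -1]]] : Fin 2 → Fin 3 → Fin 3 → ℤ) i j =
        (![![![-1, 0, 0], ![1, 0, 1], ![1, 0, -1]],
          ![![0, 1, 0], ![0, -1, 1], ![0, -1, -1]]] : Fin 2 → Fin 3 → Fin 3 → ℤ) i' j' →
        i = i' ∧ j = j' := by decide
    obtain ⟨h1, h2⟩ := key i j i' j' hij
    subst h1
    have h2' : j = j' := h2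
    subst h2'
    rfl
  · rintro ⟨i, j⟩
    have key : ∀ (i : Fin 2) (j : Fin 3),
        (![![![-1, 0, 0], ![1, 0, 1], ![1, 0, -1]],
          ![![0, 1, 0], ![0, -1, 1], ![0, -1, -1]]] : Fin 2 → Fin 3 → Fin 3 → ℤ) i j ≠ 0 := by
      decide
    exact key i j
  · rw [inK0_mk]
    norm_num
  · rw [coeff_value]
    norm_num

theorem bad_all (p : ℕ) : Bad (p + 3) (p + 2) := by
  induction p with
  | zero => exact bad_three_two
  | succ p ih => exact bad_succ ih

end Pool.Agent.Y136.MM
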