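import Pool.Agent.Results.MP_3570a5_nt.NegativeCoefficient

/-!
# The logarithm of the naive mirror map for `p = 1` has non-negative coefficients
-/

open Finset

set_option linter.unusedSectionVars false

namespace Pool.Agent.Y136.MM

open Pool.Agent.Results.MP_3570a5_nt.NegativeCoefficient

section Words

variable {σ : Type} [Fintype σ] [DecidableEq σ]

/-- The multinomial coefficient of an exponent. -/
noncomputable def cc (k : σ →₀ ℕ) : ℚ := ((∑ s, k s).factorial : ℚ) / ∏ s, ((k s).factorial : ℚ)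

lemma cc_nonneg (k : σ →₀ ℕ) : 0 ≤ cc k := by
  unfold cc
  positivity

lemma cc_zero : cc (0 : σ →₀ ℕ) = 1 := by
  simp [cc]

lemma sum_sub_single {k : σ →₀ ℕ} {s : σ} (h : 1 ≤ k s) :
    ∑ t, (k - Finsupp.single s 1 : σ →₀ ℕ) t + 1 = ∑ t, k t := by
  have h1 : ∑ t, (Finsupp.single s 1 : σ →₀ ℕ) t = 1 := by
    rw [Finset.sum_eq_single s]
    · simp
    · intro t _ ht
      simp [Finsupp.single_apply, ht.symm]
    · simp
  calc ∑ t, (k - Finsupp.single s 1 : σ →₀ ℕ) t + 1
      = ∑ t, ((k - Finsupp.single s 1 : σ →₀ ℕ) t + (Finsupp.single s 1 : σ →₀ ℕ) t) := by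
        rw [Finset.sum_add_distrib, h1]
    _ = ∑ t, k t := by
        refine Finset.sum_congr rfl fun t _ => ?_
        by_cases ht : s = t
        · subst ht
          simp
          omega
        · simp [Finsupp.single_apply, ht]

lemma cc_sub_single {k : σ →₀ ℕ} {s : σ} (h : 1 ≤ k s) :
    cc (k - Finsupp.single s 1) = cc k * (k s) / ((∑ t, k t : ℕ) : ℚ) := by
  have hn := sum_sub_single h
  obtain ⟨n, hn'⟩ : ∃ n, ∑ t, (k - Finsupp.single s 1 : σ →₀ ℕ) t = n := ⟨_, rfl⟩
  have h1 : ∑ t, k t = n + 1 := by rw [← hn, hn']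
  have h2 : (∏ t, ((k t).factorial : ℚ)) =
      (k s) * ∏ t, (((k - Finsupp.single s 1 : σ →₀ ℕ) t).factorial : ℚ) := by
    rw [← Finset.mul_prod_erase _ _ (Finset.mem_univ s),
      ← Finset.mul_prod_erase _ (fun t => (((k - Finsupp.single s 1 : σ →₀ ℕ) t).factorial : ℚ))
        (Finset.mem_univ s)]
    have h3 : ∏ t ∈ Finset.univ.erase s, ((k t).factorial : ℚ) =
        ∏ t ∈ Finset.univ.erase s, (((k - Finsupp.single s 1 : σ →₀ ℕ) t).factorial : ℚ) := by
      refine Finset.prod_congr rfl fun t ht => ?_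
      have := Finset.ne_of_mem_erase ht
      simp [Finsupp.single_apply, this.symm]
    have h4 : ((k s).factorial : ℚ) = (k s) * (((k - Finsupp.single s 1 : σ →₀ ℕ) s).factorial : ℚ) := by
      obtain ⟨m, hm⟩ : ∃ m, k s = m + 1 := ⟨k s - 1, by omega⟩
      simp [hm, Nat.factorial_succ]
    rw [h3, h4]
    ring
  unfold cc
  rw [hn', h1, h2, Nat.factorial_succ]
  have h5 : (∏ t, (((k - Finsupp.single s 1 : σ →₀ ℕ) t).factorial : ℚ)) ≠ 0 := by positivity
  have h6 : (k s : ℚ) ≠ 0 := by
    have : 0 < k s := by omega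
    positivity
  have h7 : ((n : ℚ) + 1) ≠ 0 := by positivity
  push_cast
  field_simp

/-- The sum of the variables. -/
noncomputable def U : MvPowerSeries σ ℚ := ∑ s, MvPowerSeries.X s

lemma coeff_U_mul (f : MvPowerSeries σ ℚ) (k : σ →₀ ℕ) :
    MvPowerSeries.coeff k (U * f) =
      ∑ s, if Finsupp.single s 1 ≤ k then MvPowerSeries.coeff (k - Finsupp.single s 1 : σ →₀ ℕ) f
        else 0 := by
  unfold U
  rw [Finset.sum_mul, map_sum]
  refine Finset.sum_congr rfl fun s _ => ?_
  rw [MvPowerSeries.X, MvPowerSeries.coeff_monomial_mul]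
  simp

lemma single_le_iff {k : σ →₀ ℕ} {s : σ} : Finsupp.single s 1 ≤ k ↔ 1 ≤ k s := by
  rw [Finsupp.single_le_iff]

/-- The series of all multinomial coefficients. -/
noncomputable def F : MvPowerSeries σ ℚ := fun k => cc k

lemma coeff_F (k : σ →₀ ℕ) : MvPowerSeries.coeff k (F : MvPowerSeries σ ℚ) = cc k := rfl

lemma one_sub_U_mul_F : (1 - U) * (F : MvPowerSeries σ ℚ) = 1 := by
  ext k
  rw [sub_mul, one_mul, map_sub, coeff_U_mul, coeff_F, MvPowerSeries.coeff_one]
  by_cases hk : k = 0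
  · subst hk
    simp [single_le_iff, cc_zero]
  · rw [if_neg hk]
    have hn : 0 < ∑ t, k t := by
      rcases Nat.eq_zero_or_pos (∑ t, k t) with h | h
      · exact absurd (Finsupp.ext fun t => (Finset.sum_eq_zero_iff.mp h) t (Finset.mem_univ t)) hk
      · exact h
    have h1 : ∑ s, (if Finsupp.single s 1 ≤ k then
        MvPowerSeries.coeff (k - Finsupp.single s 1 : σ →₀ ℕ) (F : MvPowerSeries σ ℚ) else 0) =
        ∑ s, cc k * (k s) / ((∑ t, k t : ℕ) : ℚ) := by
      refine Finset.sum_congr rfl fun s _ => ?_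
      by_cases hs : 1 ≤ k s
      · rw [if_pos (single_le_iff.mpr hs), coeff_F, cc_sub_single hs]
      · rw [if_neg (fun h => hs (single_le_iff.mp h))]
        have : k s = 0 := by omega
        simp [this]
    rw [h1, ← Finset.sum_div, ← Finset.mul_sum]
    have h2 : ((∑ t, k t : ℕ) : ℚ) ≠ 0 := by positivity
    rw [← Nat.cast_sum, mul_div_assoc, div_self h2, mul_one, sub_self]

/-- The weighted series. -/
noncomputable def G (j : σ) : MvPowerSeries σ ℚ :=
  fun k => cc k * (harmonic (∑ s, k s) - harmonic (k j))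

lemma coeff_G (j : σ) (k : σ →₀ ℕ) : MvPowerSeries.coeff k (G j) =
    cc k * (harmonic (∑ s, k s) - harmonic (k j)) := rfl

/-- The logarithmic series. -/
noncomputable def Lg (j : σ) : MvPowerSeries σ ℚ :=
  fun k => if k j = 0 then cc k / ((∑ t, k t : ℕ) : ℚ) else 0

lemma coeff_Lg (j : σ) (k : σ →₀ ℕ) : MvPowerSeries.coeff k (Lg j) =
    if k j = 0 then cc k / ((∑ t, k t : ℕ) : ℚ) else 0 := rfl

lemma Lg_nonneg (j : σ) (k : σ →₀ ℕ) : 0 ≤ MvPowerSeries.coeff k (Lg j) := by
  rw [coeff_Lg]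
  split_ifs
  · exact div_nonneg (cc_nonneg k) (Nat.cast_nonneg _)
  · exact le_rfl

lemma one_sub_U_mul_G (j : σ) : (1 - U) * G j = Lg j := by
  ext k
  rw [sub_mul, one_mul, map_sub, coeff_U_mul, coeff_G, coeff_Lg]
  by_cases hk : k = 0
  · subst hk
    simp [single_le_iff]
  · obtain ⟨n, hn⟩ : ∃ n, ∑ t, k t = n + 1 := by
      rcases Nat.eq_zero_or_pos (∑ t, k t) with h | h
      · exact absurd (Finsupp.ext fun t => (Finset.sum_eq_zero_iff.mp h) t (Finset.mem_univ t)) hk
      · exact ⟨∑ t, k t - 1, by omega⟩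
    have h1 : ∑ s, (if Finsupp.single s 1 ≤ k then
        MvPowerSeries.coeff (k - Finsupp.single s 1 : σ →₀ ℕ) (G j) else 0) =
        ∑ s, (cc k * (k s) / ((∑ t, k t : ℕ) : ℚ) * (harmonic n - harmonic (k j)) +
          if s = j ∧ k j ≠ 0 then cc k / ((∑ t, k t : ℕ) : ℚ) else 0) := by
      refine Finset.sum_congr rfl fun s _ => ?_
      by_cases hs : 1 ≤ k s
      · have h3 : ∑ t, (k - Finsupp.single s 1 : σ →₀ ℕ) t = n := by
          have := sum_sub_single hs
          omega
        rw [if_pos (single_le_iff.mpr hs), coeff_G, cc_sub_single hs, h3]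
        by_cases hsj : s = j
        · subst hsj
          obtain ⟨m, hm⟩ : ∃ m, k s = m + 1 := ⟨k s - 1, by omega⟩
          have h4 : (k - Finsupp.single s 1 : σ →₀ ℕ) s = m := by simp [hm]
          rw [h4, hm, if_pos ⟨rfl, by omega⟩, harmonic_succ]
          have h5 : ((m : ℚ) + 1) ≠ 0 := by positivity
          have h6 : ((∑ t, k t : ℕ) : ℚ) ≠ 0 := by rw [hn]; positivity
          push_cast at h6 ⊢
          field_simp
          ring
        · have h4 : (k - Finsupp.single s 1 : σ →₀ ℕ) j = k j := by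
            simp [Finsupp.single_apply, hsj]
          rw [h4, if_neg (fun h => hsj h.1), add_zero]
      · rw [if_neg (fun h => hs (single_le_iff.mp h))]
        have h0 : k s = 0 := by omega
        rw [if_neg (fun h => h.2 (h.1 ▸ h0))]
        simp [h0]
    rw [h1, Finset.sum_add_distrib, ← Finset.sum_mul, ← Finset.sum_div, ← Finset.mul_sum]
    have h2 : ((∑ t, k t : ℕ) : ℚ) ≠ 0 := by rw [hn]; positivity
    rw [← Nat.cast_sum, mul_div_assoc, div_self h2, mul_one]
    have h7 : (∑ s, if s = j ∧ k j ≠ 0 then cc k / ((∑ t, k t : ℕ) : ℚ) else 0) =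
        if k j = 0 then 0 else cc k / ((∑ t, k t : ℕ) : ℚ) := by
      by_cases hj : k j = 0
      · simp [hj]
      · simp [hj]
    rw [h7, hn, harmonic_succ]
    by_cases hj : k j = 0
    · rw [if_pos hj, if_pos hj]
      push_cast
      ring
    · rw [if_neg hj, if_neg hj]
      push_cast
      ring

end Words

section Proj

variable {d p : ℕ} {q : Fin p → ℕ} (v : Idx q → Fin d → ℤ)

open Classical in
/-- The part of a series with exponents in `K₀`. -/
noncomputable def proj (f : MvPowerSeries (Idx q) ℚ) : MvPowerSeries (Idx q) ℚ :=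
  fun k => if InK0 v k then MvPowerSeries.coeff k f else 0

open Classical in
lemma coeff_proj (f : MvPowerSeries (Idx q) ℚ) (k : Idx q →₀ ℕ) :
    MvPowerSeries.coeff k (proj v f) = if InK0 v k then MvPowerSeries.coeff k f else 0 := rfl

lemma inK0_zero : InK0 v 0 := by
  simp [InK0]

lemma inK0_add {k l : Idx q →₀ ℕ} (hl : InK0 v l) : InK0 v (k + l) ↔ InK0 v k := by
  unfold InK0 at *
  have : ∑ a, ((k + l) a : ℤ) • v a = ∑ a, (k a : ℤ) • v a + ∑ a, (l a : ℤ) • v a := by
    rw [← Finset.sum_add_distrib]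
    refine Finset.sum_congr rfl fun a _ => ?_
    rw [Finsupp.add_apply, Nat.cast_add, add_smul]
  rw [this, hl, add_zero]

/-- Series with exponents in `K₀`. -/
def Supp (h : MvPowerSeries (Idx q) ℚ) : Prop :=
  ∀ k, ¬ InK0 v k → MvPowerSeries.coeff k h = 0

lemma supp_proj (f : MvPowerSeries (Idx q) ℚ) : Supp v (proj v f) := fun k hk => by
  rw [coeff_proj, if_neg hk]

lemma proj_mul (f : MvPowerSeries (Idx q) ℚ) {h : MvPowerSeries (Idx q) ℚ} (hh : Supp v h) :
    proj v (f * h) = proj v f * h := by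
  classical
  ext k
  rw [coeff_proj, MvPowerSeries.coeff_mul, MvPowerSeries.coeff_mul]
  have h1 : ∀ x ∈ Finset.HasAntidiagonal.antidiagonal k, MvPowerSeries.coeff x.1 (proj v f) *
      MvPowerSeries.coeff x.2 h = if InK0 v k then
        MvPowerSeries.coeff x.1 f * MvPowerSeries.coeff x.2 h else 0 := by
    intro x hx
    rw [Finset.HasAntidiagonal.mem_antidiagonal] at hx
    by_cases h2 : InK0 v x.2
    · have h3 : InK0 v k ↔ InK0 v x.1 := by rw [← hx]; exact inK0_add v h2
      rw [coeff_proj]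
      by_cases h4 : InK0 v x.1
      · rw [if_pos h4, if_pos (h3.mpr h4)]
      · rw [if_neg h4, if_neg (fun h => h4 (h3.mp h)), zero_mul]
    · rw [hh _ h2]
      simp
  rw [Finset.sum_congr rfl h1]
  by_cases hk : InK0 v k
  · simp only [if_pos hk]
  · simp only [if_neg hk, Finset.sum_const_zero]

lemma proj_one : proj v 1 = 1 := by
  classical
  ext k
  rw [coeff_proj, MvPowerSeries.coeff_one]
  by_cases hk : k = 0
  · subst hk
    rw [if_pos (inK0_zero v)]
  · rw [if_neg hk]
    simp

lemma proj_of_supp {h : MvPowerSeries (Idx q) ℚ} (hh : Supp v h) : proj v h = h := by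
  have := proj_mul v 1 hh
  rwa [one_mul, proj_one, one_mul] at this

end Proj

section Main

variable {d : ℕ} {q : Fin 1 → ℕ} (v : Idx q → Fin d → ℤ)

lemma coefC_eq (k : Idx q →₀ ℕ) : coefC k = cc k := by
  unfold coefC cc
  rw [Fin.prod_univ_one, Fintype.sum_sigma, Fintype.prod_sigma, Fin.sum_univ_one,
    Fin.prod_univ_one]

lemma phi0_eq : phi0 v = proj v F := by
  classical
  ext k
  rw [coeff_proj, coeff_F]
  change (if InK0 v k then coefC k else 0) = _
  rw [coefC_eq]

lemma phi_eq (a : Idx q) : phi v a = proj v (G a) := by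
  classical
  ext k
  rw [coeff_proj, coeff_G]
  change (if InK0 v k then coefC k * (harmonic (∑ m, k ⟨a.1, m⟩) - harmonic (k a)) else 0) = _
  have h1 : ∑ m, k ⟨a.1, m⟩ = ∑ s, k s := by
    rw [Fintype.sum_sigma, Fin.sum_univ_one]
    have : a.1 = 0 := Subsingleton.elim _ _
    rw [this]
  rw [coefC_eq, h1]

lemma constantCoeff_phi0 : MvPowerSeries.constantCoeff (phi0 v) ≠ 0 := by
  rw [← MvPowerSeries.coeff_zero_eq_constantCoeff_apply, phi0_eq, coeff_proj,
    if_pos (inK0_zero v), coeff_F, cc_zero]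
  exact one_ne_zero

lemma supp_inv : Supp v (phi0 v)⁻¹ := by
  have h0 : Supp v (phi0 v) := by
    rw [phi0_eq]
    exact supp_proj v F
  have h1 : proj v (phi0 v)⁻¹ * phi0 v = 1 := by
    rw [← proj_mul v _ h0, MvPowerSeries.inv_mul_cancel _ (constantCoeff_phi0 v), proj_one]
  have h2 : proj v (phi0 v)⁻¹ = (phi0 v)⁻¹ := by
    calc proj v (phi0 v)⁻¹ = proj v (phi0 v)⁻¹ * (phi0 v * (phi0 v)⁻¹) := by
          rw [MvPowerSeries.mul_inv_cancel _ (constantCoeff_phi0 v), mul_one]
      _ = (phi0 v)⁻¹ := by rw [← mul_assoc, h1, one_mul]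
  rw [← h2]
  exact supp_proj v _

/-- The generating function of the words without closed initial segments. -/
noncomputable def Dd : MvPowerSeries (Idx q) ℚ := F * (phi0 v)⁻¹

lemma proj_Dd : proj v (Dd v) = 1 := by
  unfold Dd
  rw [proj_mul v _ (supp_inv v), ← phi0_eq, MvPowerSeries.mul_inv_cancel _ (constantCoeff_phi0 v)]

lemma Dd_nonneg (k : Idx q →₀ ℕ) : 0 ≤ MvPowerSeries.coeff k (Dd v) := by
  classical
  obtain ⟨n, hn⟩ : ∃ n, ∑ s, k s = n := ⟨_, rfl⟩
  induction n using Nat.strong_induction_on generalizing k with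
  | _ n ih =>
    by_cases hk : InK0 v k
    · have h1 : MvPowerSeries.coeff k (Dd v) = MvPowerSeries.coeff k (proj v (Dd v)) := by
        rw [coeff_proj, if_pos hk]
      rw [h1, proj_Dd, MvPowerSeries.coeff_one]
      split_ifs
      · exact zero_le_one
      · exact le_rfl
    · have h1 : Dd v = (phi0 v)⁻¹ + U * Dd v := by
        have h2 : (1 - U) * Dd v = (phi0 v)⁻¹ := by
          unfold Dd
          rw [← mul_assoc, one_sub_U_mul_F, one_mul]
        rw [← h2]
        ring
      rw [h1, map_add, supp_inv v k hk, zero_add, coeff_U_mul]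
      refine Finset.sum_nonneg fun s _ => ?_
      split_ifs with hs
      · rw [single_le_iff] at hs
        refine ih _ ?_ _ rfl
        have := sum_sub_single hs
        omega
      · exact le_rfl

/-- For `p = 1` the coefficients of the logarithm of the naive mirror map are non-negative. -/
theorem logMirror_nonneg (a : Idx q) (k : Idx q →₀ ℕ) :
    0 ≤ MvPowerSeries.coeff k (logMirror v a) := by
  classical
  have h1 : G a = F * Lg a := by
    rw [← one_sub_U_mul_G a, ← mul_assoc, mul_comm F, one_sub_U_mul_F, one_mul]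
  have h2 : logMirror v a = proj v (Lg a * Dd v) := by
    unfold logMirror Dd
    rw [phi_eq, ← proj_mul v _ (supp_inv v), h1]
    congr 1
    ring
  rw [h2, coeff_proj]
  split_ifs
  · rw [MvPowerSeries.coeff_mul]
    exact Finset.sum_nonneg fun x _ => mul_nonneg (Lg_nonneg a _) (Dd_nonneg v _)
  · exact le_rfl

end Main

end Pool.Agent.Y136.MM
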